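import Pool.Agent.Helper46.KG.Defs

/-! # Packet KG-F (MP_0f21ab_al) -/

set_option autoImplicit false

namespace Helper68.KG

open Helper46.KG
open scoped commutatorElement

universe u

/-! ### Numerical statements -/

theorem stA2_aux (m : ℕ) (hm : 1 ≤ m) : ∀ j, m * (m * j + 1) < 2 ^ (m + j) := by
  have h0 : m < 2 ^ m := Nat.lt_two_pow_self
  have h1 : ∀ m : ℕ, 1 ≤ m → m * (m + 1) < 2 ^ (m + 1) := by
    intro m hm
    induction m, hm using Nat.le_induction with
    | base => norm_num
    | succ m hm ih =>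
      rcases Nat.lt_or_ge m 2 with h | h
      · have : m = 1 := by omega
        subst this
        norm_num
      · have e : 2 ^ (m + 1 + 1) = 2 * 2 ^ (m + 1) := by ring
        rw [e]
        nlinarith
  intro j
  induction j with
  | zero => simpa using h0
  | succ j ih =>
    rcases Nat.eq_zero_or_pos j with rfl | hj
    · simpa using h1 m hm
    · have e : 2 ^ (m + (j + 1)) = 2 * 2 ^ (m + j) := by ring
      rw [e]
      have : m * (m * (j + 1) + 1) ≤ 2 * (m * (m * j + 1)) := by
        have h2 : m ≤ m * j := Nat.le_mul_of_pos_right _ hj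
        have h3 : m * (j + 1) + 1 ≤ 2 * (m * j + 1) := by nlinarith
        calc m * (m * (j + 1) + 1) ≤ m * (2 * (m * j + 1)) := Nat.mul_le_mul_left _ h3
          _ = 2 * (m * (m * j + 1)) := by ring
      omega

theorem stA2 : StA2 := by
  intro m n k hm hn h
  have hk : m ≤ k := by
    by_contra hlt
    push Not at hlt
    have h1 : k + 1 ≤ m := hlt
    have h2 : m * k + m ≤ m * m := by
      calc m * k + m = m * (k + 1) := by ring
        _ ≤ m * m := Nat.mul_le_mul_left _ h1
    nlinarith
  obtain ⟨j, rfl⟩ := Nat.exists_eq_add_of_le hk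
  have h3 : n ≤ m * j + 1 := by nlinarith
  calc n * m ≤ (m * j + 1) * m := Nat.mul_le_mul_right _ h3
    _ = m * (m * j + 1) := by ring
    _ < 2 ^ (m + j) := stA2_aux m hm j

theorem stH_K (u c : ℕ) (hu : 1 ≤ u) (hc : 1 ≤ c) : (u * c + 1) ^ 3 ≤ 2 ^ (3 * u + c) := by
  induction u, hu using Nat.le_induction with
  | base =>
    induction c, hc using Nat.le_induction with
    | base => norm_num
    | succ c hc ih =>
      rcases Nat.lt_or_ge c 3 with h | h
      · interval_cases c <;> norm_num
      · have e : 2 ^ (3 * 1 + (c + 1)) = 2 * 2 ^ (3 * 1 + c) := by ring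
        rw [e]
        have h2 : (1 * (c + 1) + 1) ^ 3 ≤ 2 * (1 * c + 1) ^ 3 := by
          obtain ⟨d, rfl⟩ := Nat.exists_eq_add_of_le h
          ring_nf
          nlinarith [sq_nonneg d]
        omega
  | succ u hu ih =>
    have e : 2 ^ (3 * (u + 1) + c) = 8 * 2 ^ (3 * u + c) := by ring
    rw [e]
    have h2 : (u + 1) * c + 1 ≤ 2 * (u * c + 1) := by
      have : c ≤ u * c := Nat.le_mul_of_pos_left _ hu
      nlinarith
    calc ((u + 1) * c + 1) ^ 3 ≤ (2 * (u * c + 1)) ^ 3 := Nat.pow_le_pow_left h2 3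
      _ = 8 * (u * c + 1) ^ 3 := by ring
      _ ≤ 8 * 2 ^ (3 * u + c) := Nat.mul_le_mul_left _ ih

theorem stH : StH := by
  intro p a u c hu hc hp ha
  have h1 : (p ^ a) ^ 3 ≤ (2 ^ (a * u + (a / 2) * c)) ^ 3 := by
    calc (p ^ a) ^ 3 = (p ^ 3) ^ a := by rw [← pow_mul, ← pow_mul, mul_comm]
      _ ≤ ((u * c + 1) ^ 3) ^ a := Nat.pow_le_pow_left (Nat.pow_le_pow_left hp 3) a
      _ ≤ (2 ^ (3 * u + c)) ^ a := Nat.pow_le_pow_left (stH_K u c hu hc) a
      _ = 2 ^ ((3 * u + c) * a) := by rw [← pow_mul]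
      _ ≤ 2 ^ ((a * u + (a / 2) * c) * 3) := by
        apply Nat.pow_le_pow_right (by norm_num)
        have h3 : a ≤ 3 * (a / 2) := by omega
        have h4 : a * c ≤ 3 * (a / 2) * c := Nat.mul_le_mul_right _ h3
        nlinarith
      _ = (2 ^ (a * u + (a / 2) * c)) ^ 3 := by rw [← pow_mul]
  by_contra hlt
  push Not at hlt
  exact absurd h1 (not_le.2 (Nat.pow_lt_pow_left hlt (by norm_num)))

/-! ### F -/

theorem card_add_le {X₁ X₂ Y : Type*} [Finite X₁] [Finite X₂] [Finite Y] (f₁ : X₁ → Y)
    (f₂ : X₂ → Y) (h₁ : Function.Surjective f₁) (h₂ : Function.Surjective f₂) :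
    Nat.card X₁ + Nat.card X₂ ≤ Nat.card {p : X₁ × X₂ // f₁ p.1 = f₂ p.2} + Nat.card Y := by
  classical
  obtain ⟨s₁, hs₁⟩ := h₁.hasRightInverse
  obtain ⟨s₂, hs₂⟩ := h₂.hasRightInverse
  let F : X₁ ⊕ X₂ → {p : X₁ × X₂ // f₁ p.1 = f₂ p.2} ⊕ Y := fun z => match z with
    | Sum.inl x => Sum.inl ⟨(x, s₂ (f₁ x)), (hs₂ (f₁ x)).symm⟩
    | Sum.inr x => if x = s₂ (f₂ x) then Sum.inr (f₂ x) else
        Sum.inl ⟨(s₁ (f₂ x), x), hs₁ (f₂ x)⟩
  have hF : Function.Injective F := by
    rintro (x | x) (y | y) h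
    · simp only [F, Sum.inl.injEq, Subtype.mk.injEq, Prod.mk.injEq] at h
      rw [h.1]
    · exfalso
      simp only [F] at h
      split_ifs at h with hy
      simp only [Sum.inl.injEq, Subtype.mk.injEq, Prod.mk.injEq] at h
      apply hy
      rw [← h.2, h.1, hs₁, hs₂]
    · exfalso
      simp only [F] at h
      split_ifs at h with hx
      simp only [Sum.inl.injEq, Subtype.mk.injEq, Prod.mk.injEq] at h
      apply hx
      rw [h.2, ← h.1, hs₁, hs₂]
    · simp only [F] at h
      split_ifs at h with hx hy hy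
      · simp only [Sum.inr.injEq] at h
        rw [hx, hy, h]
      · simp only [Sum.inl.injEq, Subtype.mk.injEq, Prod.mk.injEq] at h
        rw [h.2]
  have := Nat.card_le_card_of_injective F hF
  rwa [Nat.card_sum, Nat.card_sum] at this

theorem stF : StF.{u} := by
  intro G _ _ P R _ _
  classical
  let qP : G ⧸ P →* G ⧸ (P ⊔ R) := QuotientGroup.map P (P ⊔ R) (MonoidHom.id G)
    (by intro x hx; exact Subgroup.mem_sup_left hx)
  let qR : G ⧸ R →* G ⧸ (P ⊔ R) := QuotientGroup.map R (P ⊔ R) (MonoidHom.id G)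
    (by intro x hx; exact Subgroup.mem_sup_right hx)
  have hqP : Function.Surjective qP := by
    intro y
    obtain ⟨g, rfl⟩ := QuotientGroup.mk_surjective y
    exact ⟨(g : G ⧸ P), rfl⟩
  have hqR : Function.Surjective qR := by
    intro y
    obtain ⟨g, rfl⟩ := QuotientGroup.mk_surjective y
    exact ⟨(g : G ⧸ R), rfl⟩
  have h := card_add_le (ConjClasses.map qP) (ConjClasses.map qR)
    (ConjClasses.map_surjective hqP) (ConjClasses.map_surjective hqR)
  refine h.trans (Nat.add_le_add_right ?_ _)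
  let Φ : ConjClasses G → {p : ConjClasses (G ⧸ P) × ConjClasses (G ⧸ R) //
      ConjClasses.map qP p.1 = ConjClasses.map qR p.2} := fun c =>
    ⟨(ConjClasses.map (QuotientGroup.mk' P) c, ConjClasses.map (QuotientGroup.mk' R) c), by
      obtain ⟨g, rfl⟩ := ConjClasses.mk_surjective c
      rfl⟩
  have hΦ : Function.Surjective Φ := by
    rintro ⟨⟨c₁, c₂⟩, hc⟩
    obtain ⟨a, rfl⟩ := ConjClasses.mk_surjective c₁
    obtain ⟨b, rfl⟩ := ConjClasses.mk_surjective c₂
    obtain ⟨x, rfl⟩ := QuotientGroup.mk_surjective a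
    obtain ⟨y, rfl⟩ := QuotientGroup.mk_surjective b
    have hc' : ConjClasses.mk ((x : G ⧸ (P ⊔ R))) = ConjClasses.mk ((y : G ⧸ (P ⊔ R))) := hc
    rw [ConjClasses.mk_eq_mk_iff_isConj, isConj_iff] at hc'
    obtain ⟨c, hc'⟩ := hc'
    obtain ⟨g, rfl⟩ := QuotientGroup.mk_surjective c
    have h1 : ((g * x * g⁻¹ : G) : G ⧸ (P ⊔ R)) = (y : G ⧸ (P ⊔ R)) := by
      simpa using hc'
    have h2 : y⁻¹ * (g * x * g⁻¹) ∈ P ⊔ R := by
      rw [← QuotientGroup.eq]
      exact h1.symm
    rw [sup_comm, ← SetLike.mem_coe, Subgroup.mul_normal R P, Set.mem_mul] at h2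
    obtain ⟨r, hr, s, hs, hrs⟩ := h2
    rw [SetLike.mem_coe] at hr hs
    refine ⟨ConjClasses.mk (y * r), ?_⟩
    apply Subtype.ext
    refine Prod.ext ?_ ?_
    · change ConjClasses.mk ((y * r : G) : G ⧸ P) = ConjClasses.mk (x : G ⧸ P)
      rw [ConjClasses.mk_eq_mk_iff_isConj]
      refine IsConj.symm (isConj_iff.2 ⟨(g : G ⧸ P), ?_⟩)
      have h3 : ((g * x * g⁻¹ : G) : G ⧸ P) = ((y * r : G) : G ⧸ P) := by
        rw [eq_comm, QuotientGroup.eq]
        have : (y * r)⁻¹ * (g * x * g⁻¹) = s := by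
          have : y⁻¹ * (g * x * g⁻¹) = r * s := hrs.symm
          calc (y * r)⁻¹ * (g * x * g⁻¹) = r⁻¹ * (y⁻¹ * (g * x * g⁻¹)) := by group
            _ = r⁻¹ * (r * s) := by rw [this]
            _ = s := by group
        rw [this]
        exact hs
      simpa using h3
    · change ConjClasses.mk ((y * r : G) : G ⧸ R) = ConjClasses.mk (y : G ⧸ R)
      congr 1
      rw [eq_comm, QuotientGroup.eq]
      simpa using hr
  exact Nat.card_le_card_of_surjective Φ hΦ

/-! ### A -/

theorem stA : StA.{u} := by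
  intro G _ _ N _ hN hab
  classical
  have : Fintype G := Fintype.ofFinite G
  have : Fintype (ConjClasses G) := Fintype.ofFinite _
  -- classes in `N`
  have hmem : ∀ x y : G, IsConj x y → x ∈ N → y ∈ N := by
    intro x y hxy hx
    obtain ⟨c, rfl⟩ := isConj_iff.1 hxy
    exact Subgroup.Normal.conj_mem ‹_› x hx c
  let inN : ConjClasses G → Prop := fun c => ∀ x, ConjClasses.mk x = c → x ∈ N
  have hin : ∀ x : G, inN (ConjClasses.mk x) ↔ x ∈ N := by
    intro x
    constructor
    · intro h; exact h x rfl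
    · intro hx y hy
      exact hmem x y (ConjClasses.mk_eq_mk_iff_isConj.1 hy.symm) hx
  let CN : Finset (ConjClasses G) := Finset.univ.filter (fun c => inN c)
  let CO : Finset (ConjClasses G) := Finset.univ.filter (fun c => ¬ inN c)
  have hk : k G = CN.card + CO.card := by
    unfold k
    rw [Nat.card_eq_fintype_card, ← Finset.card_univ]
    exact (Finset.card_filter_add_card_filter_not (s := Finset.univ) (p := inN)).symm
  have hm : N.index = Nat.card (G ⧸ N) := rfl
  have : Fintype (G ⧸ N) := Fintype.ofFinite _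
  -- others
  have hcomm : ∀ x y : G, IsConj x y → ((x : G ⧸ N) = (y : G ⧸ N)) := by
    intro x y hxy
    obtain ⟨c, rfl⟩ := isConj_iff.1 hxy
    rw [QuotientGroup.eq]
    apply hN
    have : x⁻¹ * (c * x * c⁻¹) = ⁅x⁻¹, c⁆ := by
      simp [commutatorElement_def, mul_assoc]
    rw [this]
    exact Subgroup.commutator_mem_commutator (Subgroup.mem_top _) (Subgroup.mem_top _)
  have hO : N.index ≤ CO.card + 1 := by
    let f : ConjClasses G → G ⧸ N := fun c => Quotient.liftOn' c (fun x => (x : G ⧸ N))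
      (fun x y hxy => hcomm x y hxy)
    have hsub : (Finset.univ.erase (1 : G ⧸ N)) ⊆ CO.image f := by
      intro y hy
      obtain ⟨x, rfl⟩ := QuotientGroup.mk_surjective y
      rw [Finset.mem_image]
      refine ⟨ConjClasses.mk x, ?_, rfl⟩
      simp only [CO, Finset.mem_filter, Finset.mem_univ, true_and, hin]
      intro hx
      exact (Finset.ne_of_mem_erase hy) ((QuotientGroup.eq_one_iff x).2 hx)
    have h1 := (Finset.card_le_card hsub).trans Finset.card_image_le
    rw [Finset.card_erase_of_mem (Finset.mem_univ _), Finset.card_univ,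
      ← Nat.card_eq_fintype_card] at h1
    rw [hm]
    omega
  -- classes inside `N` have at most `m` elements
  have hcls : ∀ x ∈ N, (Finset.univ.filter (fun y : G => ConjClasses.mk y =
      ConjClasses.mk x)).card ≤ N.index := by
    intro x hx
    let g : G ⧸ N → G := fun q => Quotient.liftOn' q (fun c => c * x * c⁻¹) (by
      intro a b hab'
      have h1 : a⁻¹ * b ∈ N := by
        rwa [QuotientGroup.leftRel_apply] at hab'
      have h2 := hab _ h1 _ hx
      have : b * x * b⁻¹ = a * ((a⁻¹ * b) * x) * (a⁻¹ * b)⁻¹ * a⁻¹ := by group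
      change a * x * a⁻¹ = b * x * b⁻¹
      rw [this, h2]
      group)
    have hsub : (Finset.univ.filter (fun y : G => ConjClasses.mk y = ConjClasses.mk x)) ⊆
        Finset.univ.image g := by
      intro y hy
      rw [Finset.mem_filter] at hy
      obtain ⟨c, hc⟩ := isConj_iff.1 (ConjClasses.mk_eq_mk_iff_isConj.1 hy.2.symm)
      rw [Finset.mem_image]
      exact ⟨(c : G ⧸ N), Finset.mem_univ _, hc⟩
    have h1 := (Finset.card_le_card hsub).trans Finset.card_image_le
    rw [Finset.card_univ, ← Nat.card_eq_fintype_card, ← hm] at h1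
    exact h1
  have hone : ConjClasses.mk (1 : G) ∈ CN := by
    simp only [CN, Finset.mem_filter, Finset.mem_univ, true_and, hin]
    exact N.one_mem
  have hNc : Nat.card N ≤ N.index * (CN.card - 1) + 1 := by
    let S : Finset G := (Finset.univ.filter (fun x : G => x ∈ N)).erase 1
    have hS : S.card + 1 = Nat.card N := by
      have h1 : (Finset.univ.filter (fun x : G => x ∈ N)).card = Nat.card N := by
        rw [Nat.card_eq_fintype_card, Fintype.card_subtype]
      rw [← h1]
      exact Finset.card_erase_add_one (by simp [N.one_mem])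
    have hle : S.card ≤ N.index * (CN.erase (ConjClasses.mk 1)).card := by
      refine Finset.card_le_mul_card_image_of_maps_to (f := ConjClasses.mk) ?_ _ ?_
      · intro x hx
        simp only [S, Finset.mem_erase, Finset.mem_filter, Finset.mem_univ, true_and] at hx
        rw [Finset.mem_erase]
        refine ⟨?_, ?_⟩
        · intro h
          apply hx.1
          have := ConjClasses.mk_eq_mk_iff_isConj.1 h
          exact isConj_one_right.1 this.symm
        · simp only [CN, Finset.mem_filter, Finset.mem_univ, true_and, hin]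
          exact hx.2
      · intro c hc
        obtain ⟨x, rfl⟩ := ConjClasses.mk_surjective c
        have hx : x ∈ N := by
          have := (Finset.mem_erase.1 hc).2
          simp only [CN, Finset.mem_filter, Finset.mem_univ, true_and, hin] at this
          exact this
        refine le_trans (Finset.card_le_card ?_) (hcls x hx)
        intro y hy
        simp only [Finset.mem_filter] at hy ⊢
        exact ⟨Finset.mem_univ _, hy.2⟩
    rw [Finset.card_erase_of_mem hone] at hle
    omega
  have hCN : 1 ≤ CN.card := Finset.card_pos.2 ⟨_, hone⟩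
  obtain ⟨t, ht⟩ : ∃ t, CN.card = t + 1 := ⟨CN.card - 1, by omega⟩
  rw [hk, ht]
  rw [ht] at hNc
  simp only [Nat.add_sub_cancel] at hNc
  nlinarith

end Helper68.KG
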